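import Mathlib

-- merged part: Pool.Agent.Work.MP_e54950_al.Hist
section
set_option autoImplicit false

namespace Pool.Agent.W3E

section Hist
variable {I : Type}

/-- prepend a newest letter to a history -/
def cons (j : I) (h : ℕ → I) : ℕ → I := fun n => match n with
  | 0 => j
  | n + 1 => h n

/-- forget the `u` newest letters -/
def dr (u : ℕ) (h : ℕ → I) : ℕ → I := fun n => h (n + u)

def Agree (k : ℕ) (h h' : ℕ → I) : Prop := ∀ n, n < k → h n = h' n

@[simp] lemma cons_zero (j : I) (h : ℕ → I) : cons j h 0 = j := rfl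
@[simp] lemma cons_succ (j : I) (h : ℕ → I) (n : ℕ) : cons j h (n + 1) = h n := rfl
lemma dr_succ_cons (u : ℕ) (j : I) (h : ℕ → I) : dr (u + 1) (cons j h) = dr u h := by
  funext n; rfl
@[simp] lemma dr_zero (h : ℕ → I) : dr 0 h = h := rfl
lemma dr_apply (u : ℕ) (h : ℕ → I) (n : ℕ) : dr u h n = h (n + u) := rfl

lemma Agree.mono {k k' : ℕ} {h h' : ℕ → I} (H : Agree k h h') (hk : k' ≤ k) : Agree k' h h' :=
  fun n hn => H n (lt_of_lt_of_le hn hk)

lemma Agree.dr {k m u : ℕ} {h h' : ℕ → I} (H : Agree k h h') (hk : m + u ≤ k) :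
    Agree m (dr u h) (dr u h') := fun n hn => H (n + u) (by omega)

lemma Agree.cons {m : ℕ} {h h' : ℕ → I} (H : Agree m h h') (j : I) :
    Agree (m + 1) (cons j h) (cons j h') := by
  intro n hn
  cases n with
  | zero => rfl
  | succ n => exact H n (by omega)

variable {V : Type}

/-- star power of an operation along histories -/
def star (T : (I → V) → V) : ℕ → ((ℕ → I) → V) → (ℕ → I) → V
  | 0, g, h => g h
  | k + 1, g, h => T (fun i => star T k g (cons i h))

lemma star_succ' (T : (I → V) → V) (g : (ℕ → I) → V) : ∀ (k : ℕ) (h : ℕ → I),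
    star T (k + 1) g h = star T k (fun h' => T (fun j => g (cons j h'))) h := by
  intro k
  induction k with
  | zero => intro h; rfl
  | succ k ih =>
    intro h
    show T (fun i => star T (k + 1) g (cons i h)) = T (fun i => star T k _ (cons i h))
    congr 1
    funext i
    exact ih _

lemma star_rel (T : (I → V) → V) (E : V → V → Prop)
    (hc : ∀ x y : I → V, (∀ i, E (x i) (y i)) → E (T x) (T y))
    (g g' : (ℕ → I) → V) (H : ∀ h, E (g h) (g' h)) : ∀ (k : ℕ) (h : ℕ → I),
    E (star T k g h) (star T k g' h) := by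
  intro k
  induction k with
  | zero => intro h; exact H h
  | succ k ih => intro h; exact hc _ _ (fun i => ih _)

lemma star_indep (T : (I → V) → V) (g : (ℕ → I) → V) : ∀ (k m : ℕ),
    (∀ h h', Agree (k + m) h h' → g h = g h') → ∀ h h', Agree m h h' →
    star T k g h = star T k g h' := by
  intro k
  induction k with
  | zero => intro m H h h' hh; exact H h h' (by simpa using hh)
  | succ k ih =>
    intro m H h h' hh
    show T (fun i => star T k g (cons i h)) = T (fun i => star T k g (cons i h'))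
    congr 1
    funext i
    refine ih (m + 1) (fun h h' hh => H h h' ?_) _ _ (hh.cons i)
    exact hh.mono (by omega)

theorem loop_of_code (T : (I → V) → V) (E : V → V → Prop)
    (hid : ∀ v, T (fun _ => v) = v)
    (hc : ∀ x y : I → V, (∀ i, E (x i) (y i)) → E (T x) (T y))
    (f : (ℕ → I) → V) (k : ℕ) (hdep : ∀ h h', Agree k h h' → f h = f h')
    (hstep : ∀ h, E (f h) (T (fun j => f (cons j h)))) (h0 : ℕ → I) : ∃ v, E v v := by
  refine ⟨star T k f h0, ?_⟩
  have h1 : E (star T k f h0) (star T (k + 1) f h0) := by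
    rw [star_succ']
    exact star_rel T E hc _ _ hstep k h0
  have h2 : star T (k + 1) f h0 = star T k f h0 := by
    show T (fun i => star T k f (cons i h0)) = _
    have : (fun i => star T k f (cons i h0)) = fun _ => star T k f h0 := by
      funext i
      exact star_indep T f k 0 (by simpa using hdep) _ _ (fun n hn => absurd hn (by omega))
    rw [this, hid]
  rwa [h2] at h1

end Hist

section MIS

/-- greedy maximal independent set of the path, by increasing colour -/
def inM (c : ℕ → ℕ) (a : ℕ) : Bool :=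
  (if _h : c (a - 1) < c a then !inM c (a - 1) else true) &&
    (if _h : c (a + 1) < c a then !inM c (a + 1) else true)
termination_by c a

lemma inM_iff (c : ℕ → ℕ) (a : ℕ) : inM c a = true ↔
    (c (a - 1) < c a → inM c (a - 1) = false) ∧ (c (a + 1) < c a → inM c (a + 1) = false) := by
  rw [inM]
  by_cases h1 : c (a - 1) < c a <;> by_cases h2 : c (a + 1) < c a <;> simp [h1, h2]

lemma inM_adj (c : ℕ → ℕ) (a : ℕ) (hne : c a ≠ c (a + 1)) (h1 : inM c a = true)
    (h2 : inM c (a + 1) = true) : False := by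
  rcases lt_or_gt_of_ne hne with h | h
  · have := ((inM_iff c (a + 1)).1 h2).1 (by simpa using h)
    simp [h1] at this
  · have := ((inM_iff c a).1 h1).2 h
    simp [h2] at this

lemma inM_dom (c : ℕ → ℕ) (a : ℕ) (h0 : ¬ inM c a = true) (h1 : ¬ inM c (a + 1) = true) :
    inM c (a - 1) = true := by
  by_contra h2
  exact h0 ((inM_iff c a).2 ⟨fun _ => by simpa using h2, fun _ => by simpa using h1⟩)

lemma inM_local (c c' : ℕ → ℕ) (u b1 b2 : ℕ)
    (H : ∀ b, b1 ≤ b → b ≤ b2 → c (b + u) = c' b) : ∀ (q a : ℕ), c' a < q → b1 + q ≤ a →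
    a + q ≤ b2 → inM c (a + u) = inM c' a := by
  intro q
  induction q with
  | zero => intro a h; exact absurd h (by omega)
  | succ q ih =>
    intro a hq h1 h2
    have e0 : c (a + u) = c' a := H a (by omega) (by omega)
    have e1 : a + u - 1 = (a - 1) + u := by omega
    have e2 : a + u + 1 = (a + 1) + u := by omega
    have e3 : c ((a - 1) + u) = c' (a - 1) := H _ (by omega) (by omega)
    have e4 : c ((a + 1) + u) = c' (a + 1) := H _ (by omega) (by omega)
    rw [Bool.eq_iff_iff, inM_iff, inM_iff, e1, e2, e0, e3, e4]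
    have f1 : c' (a - 1) < c' a → inM c ((a - 1) + u) = inM c' (a - 1) :=
      fun h => ih _ (by omega) (by omega) (by omega)
    have f2 : c' (a + 1) < c' a → inM c ((a + 1) + u) = inM c' (a + 1) :=
      fun h => ih _ (by omega) (by omega) (by omega)
    constructor
    · rintro ⟨g1, g2⟩
      exact ⟨fun h => by rw [← f1 h]; exact g1 h, fun h => by rw [← f2 h]; exact g2 h⟩
    · rintro ⟨g1, g2⟩
      exact ⟨fun h => by rw [f1 h]; exact g1 h, fun h => by rw [f2 h]; exact g2 h⟩

end MIS

section Col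
open Classical
variable {I : Type}

/-- number of newer letters in the run of the letter of age `a` -/
noncomputable def fwd (h : ℕ → I) : ℕ → ℕ
  | 0 => 0
  | a + 1 => if h a = h (a + 1) then fwd h a + 1 else 0

noncomputable def col (enc : I → ℕ) (h : ℕ → I) (a : ℕ) : ℕ := 2 * enc (h a) + fwd h a % 2

lemma col_lt (enc : I → ℕ) (N : ℕ) (hN : ∀ i, enc i < N) (h : ℕ → I) (a : ℕ) :
    col enc h a < 2 * N := by
  have := hN (h a)
  unfold col
  omega

lemma col_ne (enc : I → ℕ) (hinj : Function.Injective enc) (h : ℕ → I) (a : ℕ) :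
    col enc h a ≠ col enc h (a + 1) := by
  unfold col
  by_cases hh : h a = h (a + 1)
  · have : fwd h (a + 1) = fwd h a + 1 := by simp [fwd, hh]
    rw [this, hh]
    omega
  · have : enc (h a) ≠ enc (h (a + 1)) := fun e => hh (hinj e)
    omega

lemma fwd_agree {k : ℕ} {h h' : ℕ → I} (H : Agree k h h') : ∀ a, a < k → fwd h a = fwd h' a := by
  intro a
  induction a with
  | zero => intro _; rfl
  | succ a ih =>
    intro ha
    simp only [fwd]
    rw [H a (by omega), H (a + 1) ha, ih (by omega)]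

lemma col_agree (enc : I → ℕ) {k : ℕ} {h h' : ℕ → I} (H : Agree k h h') (a : ℕ) (ha : a < k) :
    col enc h a = col enc h' a := by
  unfold col
  rw [H a ha, fwd_agree H a ha]

lemma fwd_shift (h : ℕ → I) (u b0 : ℕ) (hb : dr u h b0 ≠ dr u h (b0 + 1)) :
    ∀ t, fwd h (b0 + 1 + t + u) = fwd (dr u h) (b0 + 1 + t) := by
  intro t
  induction t with
  | zero =>
    have e : b0 + 1 + 0 + u = (b0 + u) + 1 := by omega
    have hb' : h (b0 + u) ≠ h (b0 + u + 1) := by
      have e2 : b0 + u + 1 = b0 + 1 + u := by omega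
      rw [e2]; exact hb
    rw [e]
    simp only [fwd]
    rw [if_neg hb', if_neg hb]
  | succ t ih =>
    have e : b0 + 1 + (t + 1) + u = (b0 + 1 + t + u) + 1 := by omega
    have e' : b0 + 1 + (t + 1) = (b0 + 1 + t) + 1 := by omega
    rw [e, e']
    simp only [fwd]
    rw [ih]
    have e3 : b0 + 1 + t + u + 1 = b0 + 1 + t + 1 + u := by omega
    simp only [dr_apply, e3]
    congr 1

lemma col_shift (enc : I → ℕ) (h : ℕ → I) (u b0 : ℕ) (hb : dr u h b0 ≠ dr u h (b0 + 1))
    (b : ℕ) (hb1 : b0 + 1 ≤ b) : col enc h (b + u) = col enc (dr u h) b := by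
  obtain ⟨t, rfl⟩ := Nat.exists_eq_add_of_le hb1
  unfold col
  rw [fwd_shift h u b0 hb t]
  rfl

/-- capped run length minus one -/
noncomputable def rl (C : ℕ) (h : ℕ → I) : ℕ :=
  Nat.findGreatest (fun t => ∀ b, b ≤ t → h b = h 0) C

lemma le_rl (C : ℕ) (h : ℕ → I) (t : ℕ) :
    t ≤ rl C h ↔ t ≤ C ∧ ∀ b, b ≤ t → h b = h 0 := by
  unfold rl
  constructor
  · intro ht
    refine ⟨ht.trans (Nat.findGreatest_le C), ?_⟩
    have hs := Nat.findGreatest_spec (P := fun t => ∀ b, b ≤ t → h b = h 0) (m := 0)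
      (Nat.zero_le C) (by intro b hb; rw [Nat.le_zero.1 hb])
    intro b hb
    exact hs b (hb.trans ht)
  · rintro ⟨h1, h2⟩
    exact Nat.le_findGreatest h1 h2

lemma rl_le (C : ℕ) (h : ℕ → I) : rl C h ≤ C := ((le_rl C h _).1 le_rfl).1

lemma rl_cons_same (C : ℕ) (h : ℕ → I) : rl C (cons (h 0) h) = min C (rl C h + 1) := by
  apply eq_of_forall_le_iff
  intro t
  rw [le_rl, le_min_iff]
  cases t with
  | zero =>
    simp only [Nat.zero_le, true_and, iff_true]
    intro b hb
    rw [Nat.le_zero.1 hb]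
  | succ t =>
    rw [Nat.add_le_add_iff_right, le_rl]
    constructor
    · rintro ⟨h1, h2⟩
      exact ⟨h1, by omega, fun b hb => h2 (b + 1) (by omega)⟩
    · rintro ⟨h1, -, h2⟩
      refine ⟨h1, fun b hb => ?_⟩
      cases b with
      | zero => rfl
      | succ b => exact h2 b (by omega)

lemma rl_cons_ne (C : ℕ) (h : ℕ → I) (j : I) (hj : j ≠ h 0) : rl C (cons j h) = 0 := by
  by_contra hne
  have : 1 ≤ rl C (cons j h) := by omega
  exact hj (((le_rl C _ 1).1 this).2 1 le_rfl).symm

lemma rl_agree (C : ℕ) {h h' : ℕ → I} (H : Agree (C + 1) h h') : rl C h = rl C h' := by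
  apply eq_of_forall_le_iff
  intro t
  rw [le_rl, le_rl]
  constructor
  · rintro ⟨h1, h2⟩
    refine ⟨h1, fun b hb => ?_⟩
    rw [← H b (by omega), ← H 0 (by omega)]
    exact h2 b hb
  · rintro ⟨h1, h2⟩
    refine ⟨h1, fun b hb => ?_⟩
    rw [H b (by omega), H 0 (by omega)]
    exact h2 b hb

lemma exists_break (C : ℕ) (h : ℕ → I) (t : ℕ) (ht : t + 1 ≤ C) (hr : rl C h ≤ t) :
    ∃ b, b ≤ t ∧ h b ≠ h (b + 1) := by
  by_contra hcon
  push Not at hcon
  have : t + 1 ≤ rl C h := by
    rw [le_rl]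
    refine ⟨ht, fun b hb => ?_⟩
    induction b with
    | zero => rfl
    | succ b ih => rw [← hcon b (by omega)]; exact ih (by omega)
  omega

end Col

end Pool.Agent.W3E
end

-- merged part: Pool.Agent.Work.MP_e54950_al.Loop
section
set_option autoImplicit false

namespace Pool.Agent.W3E
open Classical

def Walk {V : Type} (E : V → V → Prop) (n : ℕ) (u v : V) : Prop :=
  ∃ p : ℕ → V, p 0 = u ∧ p n = v ∧ ∀ t, t < n → E (p t) (p (t + 1))

structure Ctx (I V : Type) where
  E : V → V → Prop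
  P : V → Prop
  enc : I → ℕ
  N : ℕ
  r : V
  a : V
  e : V
  α : I → I → V
  K : ℕ
  hinj : Function.Injective enc
  hN : ∀ i, enc i < N
  hra : E r a
  har : E a r
  hre : E r e
  hea : E e a
  hK : 1 ≤ K
  hP : ∀ u v, E u v → P v
  hα : ∀ i j, P (α i j)
  hmix : ∀ u v n, P u → P v → K ≤ n → Walk E n u v

namespace Ctx
variable {I V : Type} (X : Ctx I V)

def C : ℕ := 2 * X.K + 1
def D : ℕ := 2 * X.N + 3

noncomputable def nAt (h : ℕ → I) (a : ℕ) : V :=
  if inM (col X.enc h) a = true then X.r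
  else if inM (col X.enc h) (a - 1) = true then X.a else X.e

noncomputable def W (u v : V) : ℕ → V :=
  if h : Walk X.E X.K u v then choose h else fun _ => u

noncomputable def z (h : ℕ → I) : V :=
  if rl X.C h = X.C then X.α (h 0) (h 0)
  else X.W (X.nAt (dr (rl X.C h - (X.K + 1)) h) (X.D + X.K)) (X.α (h 0) (h 0))
    (rl X.C h - (X.K + 1))

noncomputable def b1 (g : ℕ → I) : V :=
  if rl X.C (dr 1 g) = X.C then X.α (g 1) (g 0) else X.W (X.z (dr 1 g)) X.r 1

def Bk (g : ℕ → I) : Prop := X.K + 1 < rl X.C (dr 1 g) ∧ g 0 ≠ g 1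

noncomputable def pk (h : ℕ → I) : ℕ := epsilon (fun u => u ≤ X.K ∧ X.Bk (dr u h))

noncomputable def f (h : ℕ → I) : V :=
  if X.K + 1 < rl X.C h then X.z h
  else if ∃ u, u ≤ X.K ∧ X.Bk (dr u h) then
    X.W (X.b1 (dr (X.pk h) h)) (X.nAt (dr (X.pk h) h) X.D) (X.pk h)
  else X.nAt h (X.D + X.K)

lemma P_r : X.P X.r := X.hP _ _ X.har

lemma P_nAt (h : ℕ → I) (a : ℕ) : X.P (X.nAt h a) := by
  unfold nAt
  split_ifs
  · exact X.P_r
  · exact X.hP _ _ X.hra
  · exact X.hP _ _ X.hre

lemma W_spec {u v : V} (hu : X.P u) (hv : X.P v) :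
    X.W u v 0 = u ∧ X.W u v X.K = v ∧ ∀ t, t < X.K → X.E (X.W u v t) (X.W u v (t + 1)) := by
  have hw := X.hmix u v X.K hu hv le_rfl
  unfold W
  rw [dif_pos hw]
  exact choose_spec hw

lemma P_W {u v : V} (hu : X.P u) (hv : X.P v) (t : ℕ) (ht : t ≤ X.K) : X.P (X.W u v t) := by
  cases t with
  | zero => rw [(X.W_spec hu hv).1]; exact hu
  | succ t => exact X.hP _ _ ((X.W_spec hu hv).2.2 t (by omega))

lemma nAt_edge (h : ℕ → I) (a : ℕ) : X.E (X.nAt h (a + 1)) (X.nAt h a) := by
  have hne := col_ne X.enc X.hinj h a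
  unfold nAt
  rw [Nat.add_sub_cancel]
  by_cases h1 : inM (col X.enc h) (a + 1) = true
  · have h0 : ¬ inM (col X.enc h) a = true := fun h0 => inM_adj _ a hne h0 h1
    rw [if_pos h1, if_neg h0]
    split_ifs
    · exact X.hra
    · exact X.hre
  · rw [if_neg h1]
    by_cases h0 : inM (col X.enc h) a = true
    · rw [if_pos h0, if_pos h0]; exact X.har
    · rw [if_neg h0, if_neg h0, if_pos (inM_dom _ a h0 h1)]
      exact X.hea

lemma nAt_local (h g : ℕ → I) (u b1 b2 a : ℕ)
    (H : ∀ b, b1 ≤ b → b ≤ b2 → col X.enc h (b + u) = col X.enc g b)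
    (h1 : b1 + 2 * X.N + 1 ≤ a) (h2 : a + 2 * X.N ≤ b2) : X.nAt h (a + u) = X.nAt g a := by
  unfold nAt
  have e1 : a + u - 1 = (a - 1) + u := by omega
  rw [e1, inM_local _ _ u b1 b2 H (2 * X.N) a (col_lt _ _ X.hN _ _) (by omega) h2,
    inM_local _ _ u b1 b2 H (2 * X.N) (a - 1) (col_lt _ _ X.hN _ _) (by omega) (by omega)]

lemma nAt_shift (h : ℕ → I) (u b0 a : ℕ) (hb : dr u h b0 ≠ dr u h (b0 + 1))
    (h1 : b0 + 2 * X.N + 2 ≤ a) : X.nAt h (a + u) = X.nAt (dr u h) a :=
  X.nAt_local h (dr u h) u (b0 + 1) (a + 2 * X.N) a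
    (fun b hb1 _ => col_shift X.enc h u b0 hb b hb1) (by omega) le_rfl

lemma nAt_agree {k : ℕ} {h h' : ℕ → I} (H : Agree k h h') (a : ℕ) (h1 : 2 * X.N + 1 ≤ a)
    (h2 : a + 2 * X.N < k) : X.nAt h a = X.nAt h' a :=
  X.nAt_local h h' 0 0 (a + 2 * X.N) a
    (fun b _ hb2 => col_agree X.enc H b (by omega)) (by omega) le_rfl

lemma P_z (h : ℕ → I) : X.P (X.z h) := by
  unfold z
  split_ifs
  · exact X.hα _ _
  · refine X.P_W (X.P_nAt _ _) (X.hα _ _) _ ?_
    have := rl_le X.C h
    unfold C at *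
    omega

lemma P_b1 (g : ℕ → I) : X.P (X.b1 g) := by
  unfold b1
  split_ifs
  · exact X.hα _ _
  · exact X.P_W (X.P_z _) X.P_r _ X.hK

lemma z_edge (h : ℕ → I) (h1 : X.K + 1 ≤ rl X.C h) (h2 : rl X.C h ≠ X.C) :
    X.E (X.z h) (X.z (cons (h 0) h)) := by
  have hle := rl_le X.C h
  have hc : rl X.C (cons (h 0) h) = rl X.C h + 1 := by
    rw [rl_cons_same]; omega
  have hC : X.C = 2 * X.K + 1 := rfl
  have hs := X.W_spec (X.P_nAt (dr (rl X.C h - (X.K + 1)) h) (X.D + X.K)) (X.hα (h 0) (h 0))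
  have e1 : rl X.C h + 1 - (X.K + 1) = (rl X.C h - (X.K + 1)) + 1 := by omega
  have he := hs.2.2 (rl X.C h - (X.K + 1)) (by omega)
  unfold z
  rw [if_neg h2, hc, e1, dr_succ_cons, cons_zero]
  split_ifs with h3
  · have e2 : rl X.C h - (X.K + 1) + 1 = X.K := by omega
    rw [e2, hs.2.1] at he
    exact he
  · exact he

lemma Bk_unique (h : ℕ → I) (u u' : ℕ) (hu : u ≤ X.K + 1) (hu' : u' ≤ X.K + 1)
    (H : X.Bk (dr u h)) (H' : X.Bk (dr u' h)) : u = u' := by
  have key : ∀ u u' : ℕ, u < u' → u' ≤ X.K + 1 → X.Bk (dr u h) → X.Bk (dr u' h) → False := by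
    intro u u' hlt hu' H H'
    have h1 := ((le_rl X.C (dr 1 (dr u h)) (X.K + 2)).1 H.1).2
    apply H'.2
    have a1 := h1 (u' - u - 1) (by omega)
    have a2 := h1 (u' - u) (by omega)
    simp only [dr_apply] at a1 a2 ⊢
    have e1 : u' - u - 1 + 1 + u = 0 + u' := by omega
    have e2 : u' - u + 1 + u = 1 + u' := by omega
    rw [e1] at a1
    rw [e2] at a2
    rw [a1, a2]
  rcases lt_trichotomy u u' with hlt | heq | hlt
  · exact (key u u' hlt hu' H H').elim
  · exact heq
  · exact (key u' u hlt hu H' H).elim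

lemma pk_eq (h : ℕ → I) (u : ℕ) (hu : u ≤ X.K) (H : X.Bk (dr u h)) : X.pk h = u := by
  have hs := epsilon_spec (p := fun u => u ≤ X.K ∧ X.Bk (dr u h)) ⟨u, hu, H⟩
  exact X.Bk_unique h _ _ (by have := hs.1; unfold pk; omega) (by omega) hs.2 H

lemma f_A (h : ℕ → I) (hA : X.K + 1 < rl X.C h) : X.f h = X.z h := by
  unfold f; rw [if_pos hA]

lemma f_B (h : ℕ → I) (hA : ¬ X.K + 1 < rl X.C h) (u : ℕ) (hu : u ≤ X.K) (H : X.Bk (dr u h)) :
    X.f h = X.W (X.b1 (dr u h)) (X.nAt (dr u h) X.D) u := by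
  unfold f; rw [if_neg hA, if_pos ⟨u, hu, H⟩, X.pk_eq h u hu H]

lemma f_C (h : ℕ → I) (hA : ¬ X.K + 1 < rl X.C h) (hB : ¬ ∃ u, u ≤ X.K ∧ X.Bk (dr u h)) :
    X.f h = X.nAt h (X.D + X.K) := by
  unfold f; rw [if_neg hA, if_neg hB]

lemma f_break (h : ℕ → I) (hA : X.K + 1 < rl X.C h) (j : I) (hj : j ≠ h 0) :
    X.f (cons j h) = X.b1 (cons j h) := by
  have h0 : rl X.C (cons j h) = 0 := rl_cons_ne _ _ _ hj
  have hB : X.Bk (dr 0 (cons j h)) := ⟨by rw [dr_zero, dr_succ_cons]; exact hA, hj⟩
  rw [X.f_B _ (by omega) 0 (Nat.zero_le _) hB, dr_zero]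
  exact (X.W_spec (X.P_b1 _) (X.P_nAt _ _)).1

lemma normal_step (h : ℕ → I) (hA : ¬ X.K + 1 < rl X.C h)
    (hB : ¬ ∃ v, v + 1 ≤ X.K ∧ X.Bk (dr v h)) (j : I) :
    X.E (X.nAt h (X.D + X.K)) (X.f (cons j h)) := by
  have hC : X.C = 2 * X.K + 1 := rfl
  have hD : X.D = 2 * X.N + 3 := rfl
  have hK := X.hK
  by_cases hA' : X.K + 1 < rl X.C (cons j h)
  · have hj : j = h 0 := by
      by_contra hj
      rw [rl_cons_ne _ _ _ hj] at hA'
      omega
    subst hj
    rw [X.f_A _ hA']
    rw [rl_cons_same] at hA'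
    have he : rl X.C h = X.K + 1 := by omega
    have hz := X.z_edge h (by omega) (by omega)
    have : X.z h = X.nAt h (X.D + X.K) := by
      unfold z
      rw [if_neg (by omega), he, Nat.sub_self, dr_zero]
      exact (X.W_spec (X.P_nAt _ _) (X.hα _ _)).1
    rwa [this] at hz
  · have hB' : ¬ ∃ u, u ≤ X.K ∧ X.Bk (dr u (cons j h)) := by
      rintro ⟨u, hu, H⟩
      cases u with
      | zero =>
        have := H.1
        rw [dr_zero, dr_succ_cons, dr_zero] at this
        exact hA this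
      | succ v =>
        rw [dr_succ_cons] at H
        exact hB ⟨v, hu, H⟩
    rw [X.f_C _ hA' hB']
    -- a break in the history `h`
    by_cases hK1 : X.K + 1 + 1 ≤ X.C
    · obtain ⟨b0, hb0, hne⟩ := exists_break X.C h (X.K + 1) hK1 (by omega)
      have hs := X.nAt_shift (cons j h) 1 b0 (X.D + X.K)
        (by rw [dr_succ_cons, dr_zero]; exact hne) (by omega)
      rw [dr_succ_cons, dr_zero] at hs
      rw [← hs]
      exact X.nAt_edge _ _
    · omega

theorem f_step (h : ℕ → I) : (∀ j, X.E (X.f h) (X.f (cons j h))) ∨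
    ∃ i, X.f h = X.α i i ∧ ∀ j, X.f (cons j h) = X.α i j := by
  have hC : X.C = 2 * X.K + 1 := rfl
  have hD : X.D = 2 * X.N + 3 := rfl
  have hK := X.hK
  have hle := rl_le X.C h
  by_cases hA : X.K + 1 < rl X.C h
  · by_cases hfull : rl X.C h = X.C
    · right
      refine ⟨h 0, ?_, fun j => ?_⟩
      · rw [X.f_A _ hA]; unfold z; rw [if_pos hfull]
      · by_cases hj : j = h 0
        · subst hj
          have hc : rl X.C (cons (h 0) h) = X.C := by rw [rl_cons_same]; omega
          rw [X.f_A _ (by omega)]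
          unfold z
          rw [if_pos hc, cons_zero]
        · rw [X.f_break h hA j hj]
          unfold b1
          rw [dr_succ_cons, dr_zero, if_pos hfull]
          rfl
    · left
      intro j
      rw [X.f_A _ hA]
      by_cases hj : j = h 0
      · subst hj
        have hc : rl X.C (cons (h 0) h) = rl X.C h + 1 := by rw [rl_cons_same]; omega
        rw [X.f_A _ (by omega)]
        exact X.z_edge h (by omega) hfull
      · rw [X.f_break h hA j hj]
        unfold b1
        rw [dr_succ_cons, dr_zero, if_neg hfull]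
        have hs := X.W_spec (X.P_z h) X.P_r
        have := hs.2.2 0 (by omega)
        rwa [hs.1] at this
  · left
    intro j
    by_cases hB : ∃ u, u ≤ X.K ∧ X.Bk (dr u h)
    · obtain ⟨u, hu, H⟩ := hB
      have hs := X.W_spec (X.P_b1 (dr u h)) (X.P_nAt (dr u h) X.D)
      rw [X.f_B h hA u hu H]
      by_cases hu' : u = X.K
      · have e1 : X.W (X.b1 (dr u h)) (X.nAt (dr u h) X.D) u = X.nAt h (X.D + X.K) := by
          have := X.nAt_shift h u 0 X.D H.2 (by omega)
          rw [← hu', this]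
          rw [← hu'] at hs
          exact hs.2.1
        rw [e1]
        refine X.normal_step h hA ?_ j
        rintro ⟨v, hv, H'⟩
        have := X.Bk_unique h u v (by omega) (by omega) H H'
        omega
      · have hA' : ¬ X.K + 1 < rl X.C (cons j h) := by
          intro hA'
          have h1 := ((le_rl X.C (cons j h) (X.K + 2)).1 hA').2
          apply H.2
          have a1 := h1 (u + 1) (by omega)
          have a2 := h1 (u + 1 + 1) (by omega)
          rw [cons_succ] at a1 a2
          simp only [dr_apply]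
          rw [Nat.zero_add, Nat.add_comm 1 u, a1, a2]
        rw [X.f_B (cons j h) hA' (u + 1) (by omega) (by rw [dr_succ_cons]; exact H),
          dr_succ_cons]
        exact hs.2.2 u (by omega)
    · rw [X.f_C h hA hB]
      refine X.normal_step h hA ?_ j
      rintro ⟨v, hv, H'⟩
      exact hB ⟨v, by omega, H'⟩

lemma z_agree {k : ℕ} {h h' : ℕ → I} (H : Agree k h h')
    (hk : 4 * X.K + 4 * X.N + 10 ≤ k) : X.z h = X.z h' := by
  have hC : X.C = 2 * X.K + 1 := rfl
  have hD : X.D = 2 * X.N + 3 := rfl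
  have e1 : rl X.C h = rl X.C h' := rl_agree _ (H.mono (by omega))
  have e2 : h 0 = h' 0 := H 0 (by omega)
  have hle := rl_le X.C h'
  have e3 : X.nAt (dr (rl X.C h' - (X.K + 1)) h) (X.D + X.K) =
      X.nAt (dr (rl X.C h' - (X.K + 1)) h') (X.D + X.K) :=
    X.nAt_agree (H.dr (m := X.K + 4 * X.N + 4) (by omega)) _ (by omega) (by omega)
  unfold z
  rw [e1, e2, e3]

lemma b1_agree {k : ℕ} {h h' : ℕ → I} (H : Agree k h h')
    (hk : 4 * X.K + 4 * X.N + 11 ≤ k) : X.b1 h = X.b1 h' := by
  have hC : X.C = 2 * X.K + 1 := rfl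
  have e1 : rl X.C (dr 1 h) = rl X.C (dr 1 h') := rl_agree _ (H.dr (by omega))
  have e2 : h 0 = h' 0 := H 0 (by omega)
  have e3 : h 1 = h' 1 := H 1 (by omega)
  have e4 : X.z (dr 1 h) = X.z (dr 1 h') := X.z_agree (H.dr (m := k - 1) (by omega)) (by omega)
  unfold b1
  rw [e1, e2, e3, e4]

lemma Bk_agree {k : ℕ} {h h' : ℕ → I} (H : Agree k h h')
    (hk : 2 * X.K + 3 ≤ k) : X.Bk h ↔ X.Bk h' := by
  have hC : X.C = 2 * X.K + 1 := rfl
  have e1 : rl X.C (dr 1 h) = rl X.C (dr 1 h') := rl_agree _ (H.dr (by omega))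
  have e2 : h 0 = h' 0 := H 0 (by omega)
  have e3 : h 1 = h' 1 := H 1 (by omega)
  unfold Bk
  rw [e1, e2, e3]

theorem f_agree {h h' : ℕ → I} (H : Agree (5 * X.K + 4 * X.N + 11) h h') : X.f h = X.f h' := by
  have hC : X.C = 2 * X.K + 1 := rfl
  have hD : X.D = 2 * X.N + 3 := rfl
  have e1 : rl X.C h = rl X.C h' := rl_agree _ (H.mono (by omega))
  have hB : ∀ u, u ≤ X.K → (X.Bk (dr u h) ↔ X.Bk (dr u h')) := fun u hu =>
    X.Bk_agree (H.dr (m := 2 * X.K + 3) (by omega)) le_rfl
  by_cases hA : X.K + 1 < rl X.C h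
  · rw [X.f_A h hA, X.f_A h' (e1 ▸ hA)]
    exact X.z_agree H (by omega)
  · by_cases hB' : ∃ u, u ≤ X.K ∧ X.Bk (dr u h)
    · obtain ⟨u, hu, Hu⟩ := hB'
      rw [X.f_B h hA u hu Hu, X.f_B h' (e1 ▸ hA) u hu ((hB u hu).1 Hu),
        X.b1_agree (H.dr (m := 4 * X.K + 4 * X.N + 11) (u := u) (by omega)) le_rfl,
        X.nAt_agree (H.dr (m := 4 * X.K + 4 * X.N + 11) (u := u) (by omega)) X.D (by omega)
          (by omega)]
    · rw [X.f_C h hA hB', X.f_C h' (e1 ▸ hA) (fun ⟨u, hu, Hu⟩ => hB' ⟨u, hu, (hB u hu).2 Hu⟩)]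
      exact X.nAt_agree H _ (by omega) (by omega)

end Ctx

/-- the local loop lemma, in the form with uniform mixing -/
theorem local_loop {I V : Type} [Finite I] (T : (I → V) → V) (E : V → V → Prop) (P : V → Prop)
    (hid : ∀ v, T (fun _ => v) = v)
    (hc : ∀ x y : I → V, (∀ i, E (x i) (y i)) → E (T x) (T y))
    (r a e : V) (hra : E r a) (har : E a r) (hre : E r e) (hea : E e a)
    (K : ℕ) (hK : 1 ≤ K) (hP : ∀ u v, E u v → P v)
    (hmix : ∀ u v n, P u → P v → K ≤ n → Walk E n u v)
    (α : I → I → V) (hα : ∀ i j, P (α i j)) (hloc : ∀ i, E (α i i) (T (α i))) :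
    ∃ v, E v v := by
  rcases isEmpty_or_nonempty I with hI | hI
  · exact ⟨T (fun _ => r), hc _ _ (fun i => isEmptyElim i)⟩
  obtain ⟨N, ⟨φ⟩⟩ := Finite.exists_equiv_fin I
  let X : Ctx I V :=
    { E := E, P := P, enc := fun i => (φ i : ℕ), N := N, r := r, a := a, e := e, α := α, K := K
      hinj := fun i j hij => φ.injective (Fin.ext hij)
      hN := fun i => (φ i).2
      hra := hra, har := har, hre := hre, hea := hea, hK := hK, hP := hP, hα := hα
      hmix := hmix }
  refine loop_of_code T E hid hc X.f _ (fun h h' H => X.f_agree H) (fun h => ?_)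
    (fun _ => Classical.arbitrary I)
  rcases X.f_step h with H | ⟨i, H1, H2⟩
  · have := hc (fun _ => X.f h) (fun j => X.f (cons j h)) H
    rwa [hid] at this
  · have e1 : (fun j => X.f (cons j h)) = α i := funext H2
    rw [H1, e1]
    exact hloc i

end Pool.Agent.W3E
end

-- merged part: Pool.Agent.Work.MP_e54950_al.Edge
section
set_option autoImplicit false

namespace Pool.Agent.W3E
open Classical

section Walks
variable {V : Type} {E : V → V → Prop}

lemma Walk.nil (u : V) : Walk E 0 u u := ⟨fun _ => u, rfl, rfl, fun t ht => absurd ht (by omega)⟩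

lemma Walk.snoc {n : ℕ} {u v w : V} (H : Walk E n u v) (h : E v w) : Walk E (n + 1) u w := by
  obtain ⟨p, h0, hn, hp⟩ := H
  refine ⟨fun t => if t ≤ n then p t else w, by simp [h0], by simp, fun t ht => ?_⟩
  have h1 : t ≤ n := by omega
  by_cases h2 : t + 1 ≤ n
  · simp only [if_pos h1, if_pos h2]
    exact hp t (by omega)
  · have : t = n := by omega
    subst this
    simp only [if_pos h1, if_neg h2]
    rw [hn]; exact h

lemma Walk.trans {m : ℕ} {u v : V} (H : Walk E m u v) :
    ∀ {n : ℕ} {w : V}, Walk E n v w → Walk E (m + n) u w := by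
  intro n
  induction n with
  | zero =>
    rintro w ⟨p, h0, hn, -⟩
    rw [← hn, h0]; exact H
  | succ n ih =>
    rintro w ⟨p, h0, hn, hp⟩
    have h1 : Walk E n v (p n) := ⟨p, h0, rfl, fun t ht => hp t (by omega)⟩
    have := (ih h1).snoc (hp n (by omega))
    rwa [hn] at this

lemma closed_walk {r a e : V} (hra : E r a) (har : E a r) (hre : E r e) (hea : E e a) :
    ∀ n, Walk E (n + 2) r r := by
  intro n
  induction n using Nat.strong_induction_on with
  | _ n ih =>
    match n, ih with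
    | 0, _ => exact ((Walk.nil r).snoc hra).snoc har
    | 1, _ => exact (((Walk.nil r).snoc hre).snoc hea).snoc har
    | n + 2, ih => exact ((ih n (by omega)).snoc hra).snoc har

end Walks

section Clone
variable {A ι : Type} {ar : ι → ℕ} (op : (i : ι) → (Fin (ar i) → A) → A)

/-- term operations -/
inductive Tm (X : Type) : ((X → A) → A) → Prop
  | proj (j : X) : Tm X (fun x => x j)
  | app (i : ι) (g : Fin (ar i) → (X → A) → A) : (∀ k, Tm X (g k)) →
      Tm X (fun x => op i (fun k => g k x))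

variable {op}

lemma Tm.comp {X Y : Type} {t : (X → A) → A} (ht : Tm op X t) (g : X → (Y → A) → A)
    (hg : ∀ j, Tm op Y (g j)) : Tm op Y (fun y => t (fun j => g j y)) := by
  induction ht with
  | proj j => exact hg j
  | app i s _ ih => exact Tm.app i (fun k y => s k (fun j => g j y)) ih

lemma Tm.idem (hid : ∀ (i : ι) (a : A), op i (fun _ => a) = a) {X : Type} {t : (X → A) → A}
    (ht : Tm op X t) (a : A) : t (fun _ => a) = a := by
  induction ht with
  | proj j => rfl
  | app i s _ ih =>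
    show op i (fun k => s k (fun _ => a)) = a
    have : (fun k => s k (fun _ => a)) = fun _ => a := funext ih
    rw [this, hid]

/-- binary functions -/
abbrev M (A : Type) : Type := (Bool → A) → A

def pr (b : Bool) : M A := fun x => x b

def lift {X : Type} (t : (X → A) → A) (g : X → M A) : M A := fun x => t (fun k => g k x)

def lift2 {X : Type} (t : (X → A) → A) (g : X → M A × M A) : M A × M A :=
  (lift t (fun k => (g k).1), lift t (fun k => (g k).2))

def gen (b : Bool × Bool) : M A × M A := (pr b.1, pr b.2)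

variable (op) in
/-- the digraph generated by the edges `src j → tgt j` -/
def GE {J : Type} (src tgt : J → Bool × Bool) (u v : M A × M A) : Prop :=
  ∃ s, Tm op J s ∧ u = lift2 s (fun j => gen (src j)) ∧ v = lift2 s (fun j => gen (tgt j))

lemma lift_idem (hid : ∀ (i : ι) (a : A), op i (fun _ => a) = a) {X : Type} {t : (X → A) → A}
    (ht : Tm op X t) (u : M A) : lift t (fun _ => u) = u := by
  funext x
  exact ht.idem hid _

lemma lift2_idem (hid : ∀ (i : ι) (a : A), op i (fun _ => a) = a) {X : Type} {t : (X → A) → A}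
    (ht : Tm op X t) (u : M A × M A) : lift2 t (fun _ => u) = u := by
  unfold lift2
  rw [lift_idem hid ht, lift_idem hid ht]

variable {J : Type} {src tgt : J → Bool × Bool}

lemma GE.base (j : J) : GE op src tgt (gen (src j)) (gen (tgt j)) :=
  ⟨fun x => x j, Tm.proj j, rfl, rfl⟩

lemma GE.closed {X : Type} {t : (X → A) → A} (ht : Tm op X t) (u v : X → M A × M A)
    (H : ∀ k, GE op src tgt (u k) (v k)) : GE op src tgt (lift2 t u) (lift2 t v) := by
  choose s hs hu hv using H
  refine ⟨fun y => t (fun k => s k y), ht.comp s hs, ?_, ?_⟩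
  · rw [funext hu]; rfl
  · rw [funext hv]; rfl

lemma walk_closed {X : Type} {t : (X → A) → A} (ht : Tm op X t) (n : ℕ) (u v : X → M A × M A)
    (H : ∀ k, Walk (GE op src tgt) n (u k) (v k)) :
    Walk (GE op src tgt) n (lift2 t u) (lift2 t v) := by
  choose p h0 hn hp using H
  refine ⟨fun m => lift2 t (fun k => p k m), ?_, ?_, fun m hm => ?_⟩
  · show lift2 t (fun k => p k 0) = _
    rw [funext h0]
  · show lift2 t (fun k => p k n) = _
    rw [funext hn]
  · exact GE.closed ht _ _ (fun k => hp k m hm)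

variable (op src tgt) in
def PP (r u : M A × M A) : Prop := Walk (GE op src tgt) 4 u r ∧ Walk (GE op src tgt) 4 r u

lemma PP.closed (hid : ∀ (i : ι) (a : A), op i (fun _ => a) = a) {X : Type} {t : (X → A) → A}
    (ht : Tm op X t) (r : M A × M A) (u : X → M A × M A) (H : ∀ k, PP op src tgt r (u k)) :
    PP op src tgt r (lift2 t u) := by
  have h1 := walk_closed ht 4 u (fun _ => r) (fun k => (H k).1)
  have h2 := walk_closed ht 4 (fun _ => r) u (fun k => (H k).2)
  rw [lift2_idem hid ht] at h1 h2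
  exact ⟨h1, h2⟩

lemma PP.of_D0 {r a e : M A × M A} (hra : GE op src tgt r a) (har : GE op src tgt a r)
    (hre : GE op src tgt r e) (hea : GE op src tgt e a) :
    PP op src tgt r r ∧ PP op src tgt r a ∧ PP op src tgt r e := by
  refine ⟨⟨?_, ?_⟩, ⟨?_, ?_⟩, ⟨?_, ?_⟩⟩
  · exact ((((Walk.nil r).snoc hra).snoc har).snoc hra).snoc har
  · exact ((((Walk.nil r).snoc hra).snoc har).snoc hra).snoc har
  · exact ((((Walk.nil a).snoc har).snoc hre).snoc hea).snoc har
  · exact ((((Walk.nil r).snoc hre).snoc hea).snoc har).snoc hra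
  · exact ((((Walk.nil e).snoc hea).snoc har).snoc hra).snoc har
  · exact ((((Walk.nil r).snoc hre).snoc hea).snoc har).snoc hre

theorem gen_loop (hid : ∀ (i : ι) (a : A), op i (fun _ => a) = a) {I : Type} [Finite I]
    {t : (I → A) → A} (ht : Tm op I t) {r a e : M A × M A} (hra : GE op src tgt r a)
    (har : GE op src tgt a r) (hre : GE op src tgt r e) (hea : GE op src tgt e a)
    (htgt : ∀ j, PP op src tgt r (gen (tgt j)))
    (α : I → I → M A × M A) (hα : ∀ i j, PP op src tgt r (α i j))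
    (hloc : ∀ i, GE op src tgt (α i i) (lift2 t (α i))) :
    ∃ s, Tm op J s ∧ (∀ x : Bool → A, s (fun j => x (src j).1) = s (fun j => x (tgt j).1)) ∧
      (∀ x : Bool → A, s (fun j => x (src j).2) = s (fun j => x (tgt j).2)) := by
  obtain ⟨v, s, hs, h1, h2⟩ := local_loop (lift2 t) (GE op src tgt) (PP op src tgt r)
    (lift2_idem hid ht) (GE.closed ht) r a e hra har hre hea 10 (by omega)
    (by
      rintro u v ⟨s, hs, -, rfl⟩
      exact PP.closed hid hs r _ htgt)
    (by
      intro u v n hu hv hn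
      obtain ⟨m, rfl⟩ : ∃ m, n = 4 + (m + 2) + 4 := ⟨n - 10, by omega⟩
      exact (hu.1.trans (closed_walk hra har hre hea m)).trans hv.2)
    α hα hloc
  have h3 := h1.symm.trans h2
  exact ⟨s, hs, fun x => congrFun (congrArg Prod.fst h3) x,
    fun x => congrFun (congrArg Prod.snd h3) x⟩

/-- columns of the eight-ary term -/
def Adj (q : (Bool × Bool) × (Bool × Bool)) : Prop :=
  ¬ (q.1.1 = true ∧ q.2.1 = true) ∧ ¬ (q.1.2 = true ∧ q.2.2 = true) ∧ q.1 ≠ q.2

instance : DecidablePred Adj := fun q => by unfold Adj; infer_instance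

/-- Taylor identities with no column `(y, y)` -/
def NandTaylor {I : Type} (t : (I → A) → A) : Prop :=
  ∀ i, ∃ u v : I → Bool, u i = true ∧ (∀ k, ¬ (u k = true ∧ v k = true)) ∧
    ∀ x : Bool → A, t (fun k => x (u k)) = t (fun k => x (v k))

theorem step1 (hid : ∀ (i : ι) (a : A), op i (fun _ => a) = a) {I : Type} [Finite I]
    {t : (I → A) → A} (ht : Tm op I t)
    (hT : ∀ i, ∃ u v : I → Bool, u i = true ∧ v i = false ∧
      ∀ x : Bool → A, t (fun k => x (u k)) = t (fun k => x (v k))) :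
    ∃ d, Tm op {q // Adj q} d ∧ NandTaylor d := by
  let src : {q // Adj q} → Bool × Bool := fun q => q.1.1
  let tgt : {q // Adj q} → Bool × Bool := fun q => q.1.2
  have base : ∀ b c : Bool × Bool, Adj (b, c) → GE op src tgt (gen b) (gen c) :=
    fun b c h => GE.base (src := src) (tgt := tgt) ⟨(b, c), h⟩
  have hra := base (false, false) (false, true) (by decide)
  have har := base (false, true) (false, false) (by decide)
  have hre := base (false, false) (true, false) (by decide)
  have hea := base (true, false) (false, true) (by decide)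
  have hrs := base (false, false) (true, true) (by decide)
  have hsr := base (true, true) (false, false) (by decide)
  obtain ⟨p1, p2, p3⟩ := PP.of_D0 hra har hre hea
  have hall : ∀ b : Bool × Bool, PP op src tgt (gen (false, false)) (gen b) := by
    rintro ⟨_ | _, _ | _⟩
    · exact p1
    · exact p2
    · exact p3
    · exact ⟨((((Walk.nil _).snoc hsr).snoc hre).snoc hea).snoc har,
        ((((Walk.nil _).snoc hre).snoc hea).snoc har).snoc hrs⟩
  choose u v hu hv huv using hT
  obtain ⟨d, hd, h1, h2⟩ := gen_loop hid ht hra har hre hea (fun j => hall _)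
    (fun i j => gen (decide (j ≠ i), v i j)) (fun i j => hall _) (by
      intro i
      have e1 : lift2 t (fun j => gen (decide (j ≠ i), v i j)) =
          lift2 t (fun j => gen (decide (j ≠ i), u i j)) := by
        unfold lift2
        congr 1
        funext x
        exact (huv i x).symm
      have e2 : (gen (decide (i ≠ i), v i i) : M A × M A) = gen (false, false) := by
        simp [hv]
      show GE op src tgt (gen (decide (i ≠ i), v i i)) (lift2 t (fun j => gen (decide (j ≠ i), v i j)))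
      rw [e1, e2, ← lift2_idem hid ht (gen (false, false))]
      refine GE.closed ht _ _ (fun k => base _ _ ?_)
      by_cases hk : k = i
      · subst hk
        simp [Adj, hu]
      · simp [Adj, hk])
  refine ⟨d, hd, ?_⟩
  rintro ⟨⟨⟨a, c⟩, ⟨b, e⟩⟩, hq⟩
  have n1 : ∀ k : {q // Adj q}, ¬ (k.1.1.1 = true ∧ k.1.2.1 = true) := fun k => k.2.1
  have n2 : ∀ k : {q // Adj q}, ¬ (k.1.1.2 = true ∧ k.1.2.2 = true) := fun k => k.2.2.1
  by_cases ha : a = true
  · exact ⟨fun k => k.1.1.1, fun k => k.1.2.1, ha, n1, h1⟩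
  by_cases hb : b = true
  · exact ⟨fun k => k.1.2.1, fun k => k.1.1.1, hb, fun k h => n1 k h.symm, fun x => (h1 x).symm⟩
  by_cases hc : c = true
  · exact ⟨fun k => k.1.1.2, fun k => k.1.2.2, hc, n2, h2⟩
  by_cases he : e = true
  · exact ⟨fun k => k.1.2.2, fun k => k.1.1.2, he, fun k h => n2 k h.symm, fun x => (h2 x).symm⟩
  exfalso
  apply hq.2.2
  simp_all

lemma core {N : Type} (R : N → N → N → Prop) (P : N → N → Prop) (g g' : N → N → N → N)
    (hg : ∀ X, g X X X = X) (hs : ∀ X Y, g X Y X = g X X Y)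
    (hg' : ∀ X, g' X X X = X) (hs' : ∀ X Y, g' X Y X = g' X X Y)
    (hR : ∀ x1 x2 x3 y1 y2 y3 z1 z2 z3, R x1 x2 x3 → R y1 y2 y3 → R z1 z2 z3 →
      R (g x1 y1 z1) (g x2 y2 z2) (g x3 y3 z3))
    (hR' : ∀ x1 x2 x3 y1 y2 y3 z1 z2 z3, R x1 x2 x3 → R y1 y2 y3 → R z1 z2 z3 →
      R (g' x1 y1 z1) (g' x2 y2 z2) (g' x3 y3 z3))
    (hP : ∀ x1 x2 y1 y2 z1 z2, P x1 x2 → P y1 y2 → P z1 z2 → P (g x1 y1 z1) (g x2 y2 z2))
    (hP' : ∀ x1 x2 y1 y2 z1 z2, P x1 x2 → P y1 y2 → P z1 z2 → P (g' x1 y1 z1) (g' x2 y2 z2))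
    (O U : N) (r110 : R U U O) (r100 : R U O O) (r010 : R O U O) (r001 : R O O U)
    (q10 : P U O) (q01 : P O U) (q00 : P O O) (A B X Y Z : N)
    (hA : A = g O O U) (hB : B = g U U O) (hX : X = g A A O) (hY : Y = g O O B)
    (hZ : Z = g' X X Y) : R B Z Z ∧ P O Z ∧ P A Z ∧ P B Z := by
  have rBOA : R B O A := by
    have := hR _ _ _ _ _ _ _ _ _ r100 r100 r001
    rwa [hg, ← hA, ← hB] at this
  have rOAB : R O A B := by
    have := hR _ _ _ _ _ _ _ _ _ r001 r001 r010
    rwa [hg, ← hA, ← hB] at this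
  have rUAO : R U A O := by
    have := hR _ _ _ _ _ _ _ _ _ r100 r100 r110
    rwa [hg, hg, ← hA] at this
  have rBAO : R B A O := by
    have := hR _ _ _ _ _ _ _ _ _ r100 r100 r010
    rwa [hg, ← hA, ← hB] at this
  have rBBO : R B B O := by
    have := hR _ _ _ _ _ _ _ _ _ r110 r100 r010
    rwa [hg, hs, ← hB] at this
  have rBAA : R B A A := by
    have := hR _ _ _ _ _ _ _ _ _ r100 r110 r001
    rwa [hs, ← hA, ← hB] at this
  have rBXX : R B X X := by
    have := hR _ _ _ _ _ _ _ _ _ rBAA rBAO rBOA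
    rwa [hg, hs, ← hX] at this
  have rBYX : R B Y X := by
    have := hR _ _ _ _ _ _ _ _ _ rBOA rBOA rBBO
    rwa [hg, ← hX, ← hY] at this
  have rBXY : R B X Y := by
    have := hR _ _ _ _ _ _ _ _ _ rUAO r100 rOAB
    rwa [hs, ← hX, ← hY, ← hB] at this
  have rBZZ : R B Z Z := by
    have := hR' _ _ _ _ _ _ _ _ _ rBXX rBXY rBYX
    rwa [hg', hs', ← hZ] at this
  have qOA : P O A := by
    have := hP _ _ _ _ _ _ q00 q00 q01
    rwa [hg, ← hA] at this
  have qOB : P O B := by
    have := hP _ _ _ _ _ _ q01 q01 q00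
    rwa [hg, ← hB] at this
  have qOX : P O X := by
    have := hP _ _ _ _ _ _ qOA qOA q00
    rwa [hg, ← hX] at this
  have qOY : P O Y := by
    have := hP _ _ _ _ _ _ q00 q00 qOB
    rwa [hg, ← hY] at this
  have qAO : P A O := by
    have := hP _ _ _ _ _ _ q00 q00 q10
    rwa [hg, ← hA] at this
  have qAA : P A A := by
    have := hP _ _ _ _ _ _ q00 q01 q10
    rwa [hs, ← hA] at this
  have qAX : P A X := by
    have := hP _ _ _ _ _ _ qAA qAA qAO
    rwa [hg, ← hX] at this
  have qAY : P A Y := by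
    have := hP _ _ _ _ _ _ q00 qOB q10
    rwa [hs, ← hA, ← hY] at this
  have qBO : P B O := by
    have := hP _ _ _ _ _ _ q10 q10 q00
    rwa [hg, ← hB] at this
  have qBA : P B A := by
    have := hP _ _ _ _ _ _ q10 q10 q01
    rwa [← hA, ← hB] at this
  have qBX : P B X := by
    have := hP _ _ _ _ _ _ qBA qBA qBO
    rwa [hg, ← hX] at this
  have qBY : P B Y := by
    have := hP _ _ _ _ _ _ q10 q10 qOB
    rwa [← hB, ← hY] at this
  refine ⟨rBZZ, ?_, ?_, ?_⟩
  · have := hP' _ _ _ _ _ _ qOX qOX qOY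
    rwa [hg', ← hZ] at this
  · have := hP' _ _ _ _ _ _ qAX qAX qAY
    rwa [hg', ← hZ] at this
  · have := hP' _ _ _ _ _ _ qBX qBX qBY
    rwa [hg', ← hZ] at this

/-- ternary minor along two patterns -/
def g3 {I : Type} (t : (I → A) → A) (u v : I → Bool) (X Y Z : M A) : M A :=
  lift t (fun k => cond (u k) Z (cond (v k) Y X))

lemma g3_left {I : Type} (t : (I → A) → A) (u v : I → Bool) (X Y : M A) :
    g3 t u v X X Y = lift t (fun k => cond (u k) Y X) := by
  unfold g3
  congr 1
  funext k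
  cases u k <;> cases v k <;> rfl

lemma g3_symm {I : Type} {t : (I → A) → A} {u v : I → Bool}
    (hn : ∀ k, ¬ (u k = true ∧ v k = true))
    (H : ∀ x : Bool → A, t (fun k => x (u k)) = t (fun k => x (v k))) (X Y : M A) :
    g3 t u v X Y X = g3 t u v X X Y := by
  funext x
  have := H (fun b => cond b (Y x) (X x))
  show t (fun k => (cond (u k) X (cond (v k) Y X)) x) = t (fun k => (cond (u k) Y (cond (v k) X X)) x)
  have e1 : (fun k => (cond (u k) X (cond (v k) Y X)) x) = fun k => cond (v k) (Y x) (X x) := by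
    funext k
    have := hn k
    revert this
    cases u k <;> cases v k <;> simp
  have e2 : (fun k => (cond (u k) Y (cond (v k) X X)) x) = fun k => cond (u k) (Y x) (X x) := by
    funext k
    cases u k <;> cases v k <;> rfl
  rw [e1, e2]
  exact this.symm

lemma g3_idem (hid : ∀ (i : ι) (a : A), op i (fun _ => a) = a) {I : Type} {t : (I → A) → A}
    (ht : Tm op I t) (u v : I → Bool) (X : M A) : g3 t u v X X X = X := by
  rw [g3_left]
  have : (fun k => cond (u k) X X) = fun _ => X := by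
    funext k
    cases u k <;> rfl
  rw [this, lift_idem hid ht]

def src4 : Fin 4 → Bool × Bool := ![(true, false), (true, false), (false, false), (false, true)]
def tgt4 : Fin 4 → Bool × Bool := ![(false, true), (false, false), (false, true), (true, false)]

variable (op) in
def RR (p q r : M A) : Prop := GE op src4 tgt4 (p, r) (r, q)

lemma RR.closed {X : Type} {t : (X → A) → A} (ht : Tm op X t) (p q r : X → M A)
    (H : ∀ k, RR op (p k) (q k) (r k)) : RR op (lift t p) (lift t q) (lift t r) :=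
  GE.closed ht (fun k => (p k, r k)) (fun k => (r k, q k)) H

theorem step2 (hid : ∀ (i : ι) (a : A), op i (fun _ => a) = a) {I : Type} [Finite I]
    {t : (I → A) → A} (ht : Tm op I t) (hT : NandTaylor t) :
    ∃ s, Tm op (Fin 4) s ∧
      (∀ x : Bool → A, s (fun j => x (src4 j).1) = s (fun j => x (tgt4 j).1)) ∧
      (∀ x : Bool → A, s (fun j => x (src4 j).2) = s (fun j => x (tgt4 j).2)) := by
  have hra : GE op src4 tgt4 (gen (true, false)) (gen (false, true)) := GE.base 0
  have hre : GE op src4 tgt4 (gen (true, false)) (gen (false, false)) := GE.base 1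
  have hea : GE op src4 tgt4 (gen (false, false)) (gen (false, true)) := GE.base 2
  have har : GE op src4 tgt4 (gen (false, true)) (gen (true, false)) := GE.base 3
  obtain ⟨p1, p2, p3⟩ := PP.of_D0 hra har hre hea
  let O : M A := pr false
  let U : M A := pr true
  let P : M A → M A → Prop := fun p q => PP op src4 tgt4 (gen (true, false)) (p, q)
  have r110 : RR op U U O := hra
  have r100 : RR op U O O := hre
  have r010 : RR op O U O := hea
  have r001 : RR op O O U := har
  have q10 : P U O := p1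
  have q01 : P O U := p2
  have q00 : P O O := p3
  have hR : ∀ (u v : I → Bool) x1 x2 x3 y1 y2 y3 z1 z2 z3, RR op x1 x2 x3 → RR op y1 y2 y3 →
      RR op z1 z2 z3 → RR op (g3 t u v x1 y1 z1) (g3 t u v x2 y2 z2) (g3 t u v x3 y3 z3) := by
    intro u v x1 x2 x3 y1 y2 y3 z1 z2 z3 hx hy hz
    refine RR.closed ht _ _ _ (fun k => ?_)
    cases u k <;> cases v k <;> assumption
  have hP : ∀ (u v : I → Bool) x1 x2 y1 y2 z1 z2, P x1 x2 → P y1 y2 → P z1 z2 →
      P (g3 t u v x1 y1 z1) (g3 t u v x2 y2 z2) := by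
    intro u v x1 x2 y1 y2 z1 z2 hx hy hz
    refine PP.closed hid ht _ (fun k => (cond (u k) z1 (cond (v k) y1 x1),
      cond (u k) z2 (cond (v k) y2 x2))) (fun k => ?_)
    cases u k <;> cases v k <;> assumption
  choose u v hu hn huv using hT
  let a : I → M A := fun j => g3 t (u j) (v j) O O U
  let b : I → M A := fun j => g3 t (u j) (v j) U U O
  let X : I → M A := fun j => g3 t (u j) (v j) (a j) (a j) O
  let Y : I → M A := fun j => g3 t (u j) (v j) O O (b j)
  let Z : I → I → M A := fun i j => g3 t (u i) (v i) (X j) (X j) (Y j)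
  have main : ∀ i j, RR op (b j) (Z i j) (Z i j) ∧ P O (Z i j) ∧ P (a j) (Z i j) ∧
      P (b j) (Z i j) := fun i j =>
    core (RR op) P (g3 t (u j) (v j)) (g3 t (u i) (v i)) (g3_idem hid ht _ _)
      (g3_symm (hn j) (huv j)) (g3_idem hid ht _ _) (g3_symm (hn i) (huv i)) (hR _ _) (hR _ _)
      (hP _ _) (hP _ _) O U r110 r100 r010 r001 q10 q01 q00 _ _ _ _ _ rfl rfl rfl rfl rfl
  let T : (I × I → A) → A := fun x => t (fun k => t (fun l => x (k, l)))
  have hT : Tm op (I × I) T :=
    ht.comp (fun k x => t (fun l => x (k, l)))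
      (fun k => ht.comp (fun l x => x (k, l)) (fun l => Tm.proj (k, l)))
  refine gen_loop hid hT hra har hre hea ?_
    (fun p q => (cond (u p.1 q.1) (cond (u p.2 q.2) (b p.2) O) (cond (u p.2 q.2) O (a p.2)),
      Z p.1 p.2)) ?_ ?_
  · intro j
    fin_cases j
    · exact p2
    · exact p3
    · exact p2
    · exact p1
  · rintro ⟨i, j⟩ ⟨k, l⟩
    obtain ⟨-, m1, m2, m3⟩ := main i j
    show P (cond (u i k) (cond (u j l) (b j) O) (cond (u j l) O (a j))) (Z i j)
    cases u i k <;> cases u j l <;> assumption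
  · rintro ⟨i, j⟩
    have e1 : lift T (fun q : I × I =>
        cond (u i q.1) (cond (u j q.2) (b j) O) (cond (u j q.2) O (a j))) = Z i j := by
      show _ = g3 t (u i) (v i) (X j) (X j) (Y j)
      rw [g3_left]
      funext x
      show t (fun k => t (fun l => (cond (u i k) (cond (u j l) (b j) O)
        (cond (u j l) O (a j))) x)) = t (fun k => (cond (u i k) (Y j) (X j)) x)
      congr 1
      funext k
      cases u i k
      · show _ = g3 t (u j) (v j) (a j) (a j) O x
        rw [g3_left]; rfl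
      · show _ = g3 t (u j) (v j) O O (b j) x
        rw [g3_left]; rfl
    show GE op src4 tgt4 (cond (u i i) (cond (u j j) (b j) O) (cond (u j j) O (a j)), Z i j)
      (lift T (fun q : I × I =>
        cond (u i q.1) (cond (u j q.2) (b j) O) (cond (u j q.2) O (a j))),
        lift T (fun _ => Z i j))
    rw [e1, lift_idem hid hT, hu i, hu j]
    exact (main i j).1

theorem weak_edge (hid : ∀ (i : ι) (a : A), op i (fun _ => a) = a) {I : Type} [Finite I]
    {t : (I → A) → A} (ht : Tm op I t)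
    (hT : ∀ i, ∃ u v : I → Bool, u i = true ∧ v i = false ∧
      ∀ x y : A, t (fun k => cond (u k) x y) = t (fun k => cond (v k) x y)) :
    ∃ e, Tm op (Fin 4) e ∧
      ∀ a b : A, e ![b, b, a, a] = e ![b, a, b, a] ∧ e ![b, a, b, a] = e ![a, a, a, b] := by
  obtain ⟨d, hd, hN⟩ := step1 hid ht (by
    intro i
    obtain ⟨u, v, hu, hv, H⟩ := hT i
    refine ⟨u, v, hu, hv, fun x => ?_⟩
    have e : ∀ w : I → Bool, (fun k => x (w k)) = fun k => cond (w k) (x true) (x false) := by
      intro w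
      funext k
      cases w k <;> rfl
    rw [e u, e v]
    exact H _ _)
  obtain ⟨s, hs, h1, h2⟩ := step2 hid hd hN
  refine ⟨s, hs, fun a b => ?_⟩
  have g1 := h1 (fun c => cond c b a)
  have g2 := h2 (fun c => cond c b a)
  have e1 : (fun j => cond (src4 j).1 b a) = ![b, b, a, a] := by
    funext j; fin_cases j <;> rfl
  have e2 : (fun j => cond (tgt4 j).1 b a) = ![a, a, a, b] := by
    funext j; fin_cases j <;> rfl
  have e3 : (fun j => cond (src4 j).2 b a) = ![a, a, a, b] := by
    funext j; fin_cases j <;> rfl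
  have e4 : (fun j => cond (tgt4 j).2 b a) = ![b, a, b, a] := by
    funext j; fin_cases j <;> rfl
  simp only [e1, e2] at g1
  simp only [e3, e4] at g2
  exact ⟨g1.trans g2, g2.symm⟩

lemma Tm.iff {X : Type} (t : (X → A) → A) : Tm op X t ↔
    ∀ S : Set ((X → A) → A), (∀ j : X, (fun x : X → A => x j) ∈ S) →
      (∀ (i : ι) (g : Fin (ar i) → (X → A) → A), (∀ k, g k ∈ S) →
        (fun x : X → A => op i (fun k => g k x)) ∈ S) → t ∈ S := by
  constructor
  · intro ht S h1 h2
    induction ht with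
    | proj j => exact h1 j
    | app i g _ ih => exact h2 i g ih
  · intro H
    exact H {t | Tm op X t} Tm.proj Tm.app

end Clone

end Pool.Agent.W3E
end
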