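import Pool.Agent.Work.MP_e54950_al.Edge

set_option autoImplicit false

namespace Pool.Agent.W3E.Unif
open Classical

universe u v w

/-- terms in one `n`-ary symbol -/
inductive T (n : ℕ) (X : Type) : Type
  | var : X → T n X
  | app : (Fin n → T n X) → T n X

variable {n : ℕ}

/-- evaluation -/
def T.ev {X : Type} {A : Type w} (τ : (Fin n → A) → A) (x : X → A) : T n X → A
  | .var j => x j
  | .app g => τ (fun k => (g k).ev τ x)

/-- substitution -/
def T.sub {X Y : Type} (σ : X → T n Y) : T n X → T n Y
  | .var j => σ j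
  | .app g => .app (fun k => (g k).sub σ)

lemma ev_sub {X Y : Type} {A : Type w} (τ : (Fin n → A) → A) (x : Y → A) (σ : X → T n Y)
    (s : T n X) : (s.sub σ).ev τ x = s.ev τ (fun j => (σ j).ev τ x) := by
  induction s with
  | var j => rfl
  | app g ih =>
    show τ (fun k => ((g k).sub σ).ev τ x) = τ (fun k => (g k).ev τ _)
    rw [funext ih]

lemma ev_idem {X : Type} {A : Type w} (τ : (Fin n → A) → A) (hid : ∀ a, τ (fun _ => a) = a)
    (a : A) (s : T n X) : s.ev τ (fun _ => a) = a := by
  induction s with
  | var j => rfl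
  | app g ih =>
    show τ (fun k => (g k).ev τ (fun _ => a)) = a
    rw [funext ih, hid]

/-- idempotent and obeying the given identities -/
def Good (p q : Fin n → Fin n → Bool) {A : Type w} (τ : (Fin n → A) → A) : Prop :=
  (∀ a, τ (fun _ => a) = a) ∧
    ∀ i x y, τ (fun k => cond (p i k) x y) = τ (fun k => cond (q i k) x y)

/-- equality in all models -/
def st (p q : Fin n → Fin n → Bool) : Setoid (T n Bool) where
  r s s' := ∀ (A : Type w) (τ : (Fin n → A) → A), Good p q τ → ∀ x, s.ev τ x = s'.ev τ x
  iseqv := ⟨fun _ _ _ _ _ => rfl, fun h A τ H x => (h A τ H x).symm,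
    fun h h' A τ H x => (h A τ H x).trans (h' A τ H x)⟩

variable {p q : Fin n → Fin n → Bool}

/-- the operation of the free algebra -/
noncomputable def opQ (g : Fin n → Quotient (st.{w} p q)) : Quotient (st.{w} p q) :=
  Quotient.mk _ (T.app fun k => (g k).out)

lemma opQ_mk (g : Fin n → T n Bool) :
    opQ (fun k => Quotient.mk (st.{w} p q) (g k)) = Quotient.mk _ (T.app g) := by
  apply Quotient.sound
  intro A τ H x
  show τ (fun k => T.ev τ x (Quotient.mk (st.{w} p q) (g k)).out) = τ (fun k => (g k).ev τ x)
  congr 1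
  funext k
  exact Quotient.exact (Quotient.out_eq (Quotient.mk (st.{w} p q) (g k))) A τ H x

lemma ev_opQ {X : Type} (σ : X → T n Bool) (s : T n X) :
    s.ev opQ (fun j => Quotient.mk (st.{w} p q) (σ j)) = Quotient.mk _ (s.sub σ) := by
  induction s with
  | var j => rfl
  | app g ih =>
    show opQ (fun k => (g k).ev opQ _) = _
    rw [funext ih, opQ_mk]
    rfl

lemma good_opQ : Good p q (opQ : (Fin n → Quotient (st.{w} p q)) → _) := by
  constructor
  · intro a
    induction a using Quotient.inductionOn with
    | _ s =>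
      rw [opQ_mk (fun _ => s)]
      apply Quotient.sound
      intro A τ H x
      exact H.1 _
  · intro i a b
    induction a using Quotient.inductionOn with
    | _ s =>
    induction b using Quotient.inductionOn with
    | _ s' =>
      have e : ∀ r : Fin n → Bool, (fun k => cond (r k) (Quotient.mk (st.{w} p q) s)
          (Quotient.mk (st.{w} p q) s')) =
          fun k => Quotient.mk (st.{w} p q) (cond (r k) s s') := by
        intro r
        funext k
        cases r k <;> rfl
      rw [e, e, opQ_mk, opQ_mk]
      apply Quotient.sound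
      intro A τ H x
      have e' : ∀ r : Fin n → Bool, (fun k => T.ev τ x (cond (r k) s s')) =
          fun k => cond (r k) (s.ev τ x) (s'.ev τ x) := by
        intro r
        funext k
        cases r k <;> rfl
      show τ (fun k => T.ev τ x (cond (p i k) s s')) = τ (fun k => T.ev τ x (cond (q i k) s s'))
      rw [e', e']
      exact H.2 i _ _

lemma tm_to_T {B X : Type} (τ : (Fin n → B) → B) {e : (X → B) → B}
    (he : Tm (ar := fun _ : Unit => n) (fun _ => τ) X e) : ∃ s : T n X, ∀ x, e x = s.ev τ x := by
  induction he with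
  | proj j => exact ⟨.var j, fun _ => rfl⟩
  | app i g _ ih =>
    choose s hs using ih
    refine ⟨.app s, fun x => ?_⟩
    show τ (fun k => g k x) = τ (fun k => (s k).ev τ x)
    rw [funext (fun k => hs k x)]

theorem unif (hp : ∀ i, p i i = true) (hq : ∀ i, q i i = false) :
    ∃ s : T n (Fin 4), ∀ (A : Type w) (τ : (Fin n → A) → A), Good p q τ → ∀ a b : A,
      s.ev τ ![b, b, a, a] = s.ev τ ![b, a, b, a] ∧ s.ev τ ![b, a, b, a] = s.ev τ ![a, a, a, b] := by
  have G := good_opQ.{w} (p := p) (q := q)
  have ht : Tm (ar := fun _ : Unit => n) (fun _ => (opQ : (Fin n → Quotient (st.{w} p q)) → _))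
      (Fin n) opQ := Tm.app () (fun k x => x k) (fun k => Tm.proj k)
  obtain ⟨e, he, h⟩ := weak_edge (ar := fun _ : Unit => n) (fun _ a => G.1 a) ht
    (fun i => ⟨p i, q i, hp i, hq i, G.2 i⟩)
  obtain ⟨s, hs⟩ := tm_to_T _ he
  refine ⟨s, fun A τ H a b => ?_⟩
  obtain ⟨h1, h2⟩ := h (Quotient.mk _ (T.var false)) (Quotient.mk _ (T.var true))
  have key : ∀ c d : Fin 4 → Bool,
      e (fun j => Quotient.mk (st.{w} p q) (T.var (c j))) =
        e (fun j => Quotient.mk (st.{w} p q) (T.var (d j))) →
      s.ev τ (fun j => cond (c j) b a) = s.ev τ (fun j => cond (d j) b a) := by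
    intro c d hcd
    rw [hs, hs, ev_opQ (fun j => T.var (c j)), ev_opQ (fun j => T.var (d j))] at hcd
    have := Quotient.exact hcd A τ H (fun z => cond z b a)
    rw [ev_sub, ev_sub] at this
    exact this
  have a1 : (![b, b, a, a] : Fin 4 → A) = fun j => cond (![true, true, false, false] j) b a := by
    funext j; fin_cases j <;> rfl
  have a2 : (![b, a, b, a] : Fin 4 → A) = fun j => cond (![true, false, true, false] j) b a := by
    funext j; fin_cases j <;> rfl
  have a3 : (![a, a, a, b] : Fin 4 → A) = fun j => cond (![false, false, false, true] j) b a := by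
    funext j; fin_cases j <;> rfl
  rw [a1, a2, a3]
  constructor
  · apply key
    convert h1 using 2 <;> funext j <;> fin_cases j <;> rfl
  · apply key
    convert h2 using 2 <;> funext j <;> fin_cases j <;> rfl

open FirstOrder FirstOrder.Language

/-- substitute a term for the symbol -/
def T.toL {L : FirstOrder.Language.{u, v}} {X : Type} (t : L.Term (Fin n)) : T n X → L.Term X
  | .var j => Term.var j
  | .app g => t.subst (fun k => (g k).toL t)

lemma realize_toL {L : FirstOrder.Language.{u, v}} {X : Type} (t : L.Term (Fin n)) {A : Type w}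
    [L.Structure A] (x : X → A) (s : T n X) :
    (s.toL t).realize x = s.ev (fun y => t.realize y) x := by
  induction s with
  | var j => rfl
  | app g ih =>
    show (t.subst (fun k => (g k).toL t)).realize x = t.realize (fun k => (g k).ev _ x)
    rw [Term.realize_subst, funext ih]

theorem unifL (L : FirstOrder.Language.{u, v}) (n : ℕ) (t : L.Term (Fin n)) (p q : Fin n → Fin n → Bool)
    (hp : ∀ i, p i i = true) (hq : ∀ i, q i i = false) :
    ∃ e : L.Term (Fin 4), ∀ (A : Type w) [L.Structure A],
      (∀ a : A, t.realize (fun _ => a) = a) →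
      (∀ (i : Fin n) (x y : A),
        t.realize (fun k => cond (p i k) x y) = t.realize (fun k => cond (q i k) x y)) →
      (∀ a : A, e.realize (fun _ => a) = a) ∧
        ∀ a b : A, e.realize ![b, b, a, a] = e.realize ![b, a, b, a] ∧
          e.realize ![b, a, b, a] = e.realize ![a, a, a, b] := by
  obtain ⟨s, hs⟩ := unif.{w} hp hq
  refine ⟨s.toL t, fun A _ hid hT => ⟨fun a => ?_, fun a b => ?_⟩⟩
  · rw [realize_toL]
    exact ev_idem _ hid a s
  · simp only [realize_toL]
    exact hs A _ ⟨hid, hT⟩ a b

end Pool.Agent.W3E.Unif
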